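import Pool.Agent.Helper66_ML.Stmts

/-!
# Squad ML: module BRD (the braid relations)
-/

noncomputable section

namespace Pool.Agent.PP.ML.H84

open Pool.Agent.PP.ML

private theorem conj_inv_mem {G : Type} [Group G] [Finite G] (U : Subgroup G) (x : G)
    (h : ∀ u ∈ U, x * u * x⁻¹ ∈ U) : ∀ u ∈ U, x⁻¹ * u * x ∈ U := by
  have hp : ∀ n : ℕ, ∀ u ∈ U, x ^ n * u * (x ^ n)⁻¹ ∈ U := by
    intro n
    induction n with
    | zero => intro u hu; simpa using hu
    | succ n ih =>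
      intro u hu
      have h1 := h _ (ih u hu)
      have e : x ^ (n + 1) * u * (x ^ (n + 1))⁻¹ = x * (x ^ n * u * (x ^ n)⁻¹) * x⁻¹ := by
        rw [pow_succ']; group
      rw [e]; exact h1
  intro u hu
  have h0 := hp (orderOf x - 1) u hu
  have e : x ^ (orderOf x - 1) = x⁻¹ := by
    have h1 : x ^ (orderOf x - 1) * x = 1 := by
      rw [← pow_succ, Nat.sub_add_cancel (orderOf_pos x), pow_orderOf_eq_one]
    exact eq_inv_of_mul_eq_one_left h1
  rw [e, inv_inv] at h0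
  exact h0

private theorem in_aa {G X : Type} [Group G] [Finite G] [MulAction G X] (R : Subgroup G) (g : G)
    (w : X × G × G) (h : InOm R g w) : InOm R g (aa w) := by
  obtain ⟨s, x, y⟩ := w
  obtain ⟨h1, h2, h3, h4⟩ := h
  simp only at h1 h2 h3 h4
  refine ⟨h1, ?_, ?_, ?_⟩
  · show (y * x) • s = s
    rw [mul_smul, h1, h2]
  · show x * (y * x) * x⁻¹ * (y * x)⁻¹ = g
    rw [← h3]; group
  · intro U hU hf hx hy
    refine h4 U hU hf hx ?_
    intro u hu
    have h5 := hy _ (conj_inv_mem U x hx u hu)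
    have e : (aa (s, x, y)).2.2 * (x⁻¹ * u * x) * ((aa (s, x, y)).2.2)⁻¹ = y * u * y⁻¹ := by
      show (y * x) * (x⁻¹ * u * x) * (y * x)⁻¹ = y * u * y⁻¹
      group
    have h6 : (aa (s, x, y)).2.2 * (x⁻¹ * u * x) * ((aa (s, x, y)).2.2)⁻¹ ∈ U := h5
    rw [e] at h6
    exact h6

private theorem in_bb {G X : Type} [Group G] [MulAction G X] (R : Subgroup G) (g : G)
    (w : X × G × G) (h : InOm R g w) : InOm R g (bb w) := by
  obtain ⟨s, x, y⟩ := w
  obtain ⟨h1, h2, h3, h4⟩ := h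
  simp only at h1 h2 h3 h4
  refine ⟨?_, h2, ?_, ?_⟩
  · show (x * y⁻¹) • s = s
    rw [mul_smul, inv_smul_eq_iff.2 h2.symm, h1]
  · show (x * y⁻¹) * y * (x * y⁻¹)⁻¹ * y⁻¹ = g
    rw [← h3]; group
  · intro U hU hf hx hy
    refine h4 U hU hf ?_ hy
    intro u hu
    have h5 : (x * y⁻¹) * (y * u * y⁻¹) * (x * y⁻¹)⁻¹ ∈ U := hx _ (hy u hu)
    have e : (x * y⁻¹) * (y * u * y⁻¹) * (x * y⁻¹)⁻¹ = x * u * x⁻¹ := by group
    rw [e] at h5
    exact h5

private theorem in_cjt {G X : Type} [Group G] [MulAction G X] (R : Subgroup G) (g : G)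
    (hR : ∀ r ∈ R, r * g = g * r)
    (w : X × G × G) (h : InOm R g w) (r : G) (hr : r ∈ R) : InOm R g (cjt r w) := by
  obtain ⟨s, x, y⟩ := w
  obtain ⟨h1, h2, h3, h4⟩ := h
  simp only at h1 h2 h3 h4
  refine ⟨?_, ?_, ?_, ?_⟩
  · show (r * x * r⁻¹) • (r • s) = r • s
    rw [← mul_smul, show r * x * r⁻¹ * r = r * x by group, mul_smul, h1]
  · show (r * y * r⁻¹) • (r • s) = r • s
    rw [← mul_smul, show r * y * r⁻¹ * r = r * y by group, mul_smul, h2]
  · show (r * x * r⁻¹) * (r * y * r⁻¹) * (r * x * r⁻¹)⁻¹ * (r * y * r⁻¹)⁻¹ = g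
    have e : (r * x * r⁻¹) * (r * y * r⁻¹) * (r * x * r⁻¹)⁻¹ * (r * y * r⁻¹)⁻¹
        = r * (x * y * x⁻¹ * y⁻¹) * r⁻¹ := by group
    rw [e, h3, hR r hr]; group
  · intro U hU hf hx hy
    have hf' : ∀ u ∈ U, u • (r • s) = r • s := hf
    have hx' : ∀ u ∈ U, (r * x * r⁻¹) * u * (r * x * r⁻¹)⁻¹ ∈ U := hx
    have hy' : ∀ u ∈ U, (r * y * r⁻¹) * u * (r * y * r⁻¹)⁻¹ ∈ U := hy
    have hV : U.comap (MulAut.conj r).toMonoidHom = ⊥ := by
      refine h4 _ ?_ ?_ ?_ ?_
      · intro u hu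
        have hu' : r * u * r⁻¹ ∈ U := hu
        have e : u = r⁻¹ * (r * u * r⁻¹) * r := by group
        rw [e]
        exact R.mul_mem (R.mul_mem (R.inv_mem hr) (hU hu')) hr
      · intro u hu
        have hu' : r * u * r⁻¹ ∈ U := hu
        have h5 := hf' _ hu'
        rw [← mul_smul, show r * u * r⁻¹ * r = r * u by group, mul_smul] at h5
        exact (MulAction.injective r) h5
      · intro u hu
        have hu' : r * u * r⁻¹ ∈ U := hu
        have h5 := hx' _ hu'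
        show r * (x * u * x⁻¹) * r⁻¹ ∈ U
        have e : (r * x * r⁻¹) * (r * u * r⁻¹) * (r * x * r⁻¹)⁻¹ = r * (x * u * x⁻¹) * r⁻¹ := by
          group
        rw [← e]; exact h5
      · intro u hu
        have hu' : r * u * r⁻¹ ∈ U := hu
        have h5 := hy' _ hu'
        show r * (y * u * y⁻¹) * r⁻¹ ∈ U
        have e : (r * y * r⁻¹) * (r * u * r⁻¹) * (r * y * r⁻¹)⁻¹ = r * (y * u * y⁻¹) * r⁻¹ := by
          group
        rw [← e]; exact h5
    rw [eq_bot_iff]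
    intro u hu
    have h6 : r⁻¹ * u * r ∈ U.comap (MulAut.conj r).toMonoidHom := by
      show r * (r⁻¹ * u * r) * r⁻¹ ∈ U
      rw [show r * (r⁻¹ * u * r) * r⁻¹ = u by group]; exact hu
    rw [hV, Subgroup.mem_bot] at h6
    rw [Subgroup.mem_bot]
    have e : u = r * (r⁻¹ * u * r) * r⁻¹ := by group
    rw [e, h6]; group

private theorem free {G X : Type} [Group G] [MulAction G X] (R : Subgroup G) (g : G)
    (w : X × G × G) (h : InOm R g w) (r : G) (hr : r ∈ R) (e : cjt r w = w) : r = 1 := by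
  obtain ⟨s, x, y⟩ := w
  obtain ⟨h1, h2, h3, h4⟩ := h
  simp only at h1 h2 h3 h4
  simp only [cjt, Prod.mk.injEq] at e
  obtain ⟨e1, e2, e3⟩ := e
  have cx : Commute r x := by
    show r * x = x * r
    exact mul_inv_eq_iff_eq_mul.1 e2
  have cy : Commute r y := by
    show r * y = y * r
    exact mul_inv_eq_iff_eq_mul.1 e3
  have hb := h4 (Subgroup.zpowers r) ?_ ?_ ?_ ?_
  · have : r ∈ Subgroup.zpowers r := Subgroup.mem_zpowers r
    rw [hb, Subgroup.mem_bot] at this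
    exact this
  · rw [Subgroup.zpowers_le]; exact hr
  · intro u hu
    have h5 : Subgroup.zpowers r ≤ MulAction.stabilizer G s := by
      rw [Subgroup.zpowers_le]; exact e1
    exact h5 hu
  · rintro u ⟨n, rfl⟩
    have h5 : x * r ^ n * x⁻¹ = r ^ n := by
      rw [← (cx.zpow_left n).eq]; group
    show x * r ^ n * x⁻¹ ∈ Subgroup.zpowers r
    rw [h5]; exact ⟨n, rfl⟩
  · rintro u ⟨n, rfl⟩
    have h5 : y * r ^ n * y⁻¹ = r ^ n := by
      rw [← (cy.zpow_left n).eq]; group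
    show y * r ^ n * y⁻¹ ∈ Subgroup.zpowers r
    rw [h5]; exact ⟨n, rfl⟩

theorem brd : BrdStmt := by
  intro G X _ _ _ R g hR
  refine ⟨?_, ?_, ?_, ?_⟩
  · intro w h
    have hg : g • w.1 = w.1 := by
      rw [← h.cm, mul_smul, mul_smul, mul_smul, inv_smul_eq_iff.2 h.sy.symm,
        inv_smul_eq_iff.2 h.sx.symm, h.sy, h.sx]
    refine ⟨in_aa R g w h, in_bb R g w h, fun r hr => in_cjt R g hR w h r hr,
      fun r hr e => free R g w h r hr e, ?_, ?_, hg⟩
    · obtain ⟨s, x, y⟩ := w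
      simp only [aa, bb, Prod.mk.injEq, true_and]
      constructor <;> group
    · have hg' : g⁻¹ • w.1 = w.1 := inv_smul_eq_iff.2 hg.symm
      have hc := h.cm
      obtain ⟨s, x, y⟩ := w
      simp only at hc hg'
      subst hc
      simp only [Function.iterate_succ, Function.iterate_zero, Function.comp, id, aa, bb, cjt,
        Prod.mk.injEq]
      refine ⟨hg'.symm, ?_, ?_⟩ <;> group
  · rintro ⟨s, x, y⟩ ⟨s', x', y'⟩ e
    simp only [aa, Prod.mk.injEq] at e
    obtain ⟨rfl, rfl, e3⟩ := e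
    have := mul_right_cancel e3
    subst this
    rfl
  · rintro ⟨s, x, y⟩ ⟨s', x', y'⟩ e
    simp only [bb, Prod.mk.injEq] at e
    obtain ⟨rfl, e2, rfl⟩ := e
    have := mul_right_cancel e2
    subst this
    rfl
  · rintro r ⟨s, x, y⟩
    simp only [aa, bb, cjt, Prod.mk.injEq, true_and, and_true]
    constructor <;> group

end Pool.Agent.PP.ML.H84
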